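import Pool.Agent.H27.Iso11

open Pool.Agent.H27

namespace Pool.Agent.Results.MP_a6dd47_an.Isolated

/-- The first `q`-eigenvalue of a `q`-admissible open set is isolated, for `2 < q < 2*`. -/
theorem result (N : ℕ) (hN : 2 ≤ N) (q : ℝ) (hq : 2 < q) (hqN : ((N : ℝ) - 2) * q < 2 * N)
    (Ω : Set (EuclideanSpace ℝ (Fin N))) (_hΩ : IsOpen Ω) (hA : QSpec.Adm Ω q) :
    ∃ ε : ℝ, 0 < ε ∧ ∀ l ∈ QSpec.Spec Ω q, QSpec.lam1 Ω q < l → QSpec.lam1 Ω q + ε ≤ l := by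
  obtain ⟨D, hD⟩ := Iso.real_adm hN hq hqN hA
  have e : QSpec.lam1 Ω q = D.lam := hD.lam_eq (Or.inr rfl)
  obtain ⟨ε, ε0, hε⟩ := D.isolated
  refine ⟨ε, ε0, fun l ⟨u, hu⟩ hl => ?_⟩
  obtain ⟨k, hk, -⟩ := hD.isEig hu
  rw [e] at hl ⊢
  by_contra hc
  exact hl.ne' (hε k l hk (not_le.1 hc))

end Pool.Agent.Results.MP_a6dd47_an.Isolated
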